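import Pool.Agent.H80.G2.Targets

set_option autoImplicit false

open Pool.Agent.H80.G2 Filter Topology

namespace Pool.Agent.H30.G2

section
variable {H : Type} [NormedAddCommGroup H] [InnerProductSpace ℂ H] [CompleteSpace H]

theorem cmp_summable {ξ : ℕ → H} (h : Summable fun n => ‖ξ n‖ ^ 2) (z : H →L[ℂ] H) :
    Summable fun n => ‖z (ξ n)‖ ^ 2 := by
  refine Summable.of_nonneg_of_le (fun n => by positivity) (fun n => ?_) (h.mul_left (‖z‖ ^ 2))
  rw [← mul_pow]
  exact pow_le_pow_left₀ (norm_nonneg _) (z.le_opNorm _) 2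

theorem cmp_sum_le {ξ : ℕ → H} (h : Summable fun n => ‖ξ n‖ ^ 2) (z : H →L[ℂ] H)
    (s : Finset ℕ) : ∑ n ∈ s, ‖z (ξ n)‖ ^ 2 ≤ n2 ξ z ^ 2 := by
  unfold n2
  rw [Real.sq_sqrt (tsum_nonneg fun n => by positivity)]
  exact (cmp_summable h z).sum_le_tsum s fun n _ => by positivity

theorem cmp_apply_le {ξ : ℕ → H} (h : Summable fun n => ‖ξ n‖ ^ 2) (z : H →L[ℂ] H) (n : ℕ) :
    ‖z (ξ n)‖ ≤ n2 ξ z := by
  have h1 := cmp_sum_le h z {n}
  rw [Finset.sum_singleton] at h1
  exact (pow_le_pow_iff_left₀ (norm_nonneg _) (n2_nonneg ξ z) two_ne_zero).mp h1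

/-- strong Cauchy property of bounded sequences on a dense subspace -/
theorem cmp_cauchy (x : ℕ → (H →L[ℂ] H)) (C : ℝ) (hC : ∀ k, ‖x k‖ ≤ C) (S : Set H)
    (hS : ∀ η ∈ S, CauchySeq fun k => x k η) (ζ : H)
    (hζ : ζ ∈ (Submodule.span ℂ S).topologicalClosure) : CauchySeq fun k => x k ζ := by
  have hC0 : 0 ≤ C := (norm_nonneg _).trans (hC 0)
  have hspan : ∀ η ∈ Submodule.span ℂ S, CauchySeq fun k => x k η := by
    intro η hη
    induction hη using Submodule.span_induction with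
    | mem a ha => exact hS a ha
    | zero =>
      have : (fun k => x k (0 : H)) = fun _ => (0 : H) := by
        funext k
        rw [map_zero]
      rw [this]
      exact cauchySeq_const 0
    | add a b _ _ ha hb =>
      have : (fun k => x k (a + b)) = (fun k => x k a) + fun k => x k b := by
        funext k
        rw [map_add]
        rfl
      rw [this]
      exact ha.add hb
    | smul c a _ ha =>
      have : (fun k => x k (c • a)) = fun k => c • x k a := by
        funext k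
        rw [map_smul]
      rw [this]
      exact (uniformContinuous_const_smul c).comp_cauchySeq ha
  rw [Metric.cauchySeq_iff]
  intro ε hε
  have hmem : ζ ∈ closure (Submodule.span ℂ S : Set H) := hζ
  obtain ⟨η, hη, hd⟩ := Metric.mem_closure_iff.mp hmem (ε / (4 * (C + 1))) (by positivity)
  obtain ⟨K, hK⟩ := Metric.cauchySeq_iff.mp (hspan η hη) (ε / 2) (by positivity)
  refine ⟨K, fun j hj k hk => ?_⟩
  have h1 := hK j hj k hk
  rw [dist_eq_norm] at h1 ⊢
  rw [dist_eq_norm] at hd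
  have h2 : x j ζ - x k ζ = x j (ζ - η) - x k (ζ - η) + (x j η - x k η) := by
    rw [map_sub, map_sub]
    abel
  have h3 : ∀ i, ‖x i (ζ - η)‖ ≤ C * ‖ζ - η‖ := fun i =>
    ((x i).le_opNorm _).trans (mul_le_mul_of_nonneg_right (hC i) (norm_nonneg _))
  have h4 : C * ‖ζ - η‖ ≤ ε / 4 := by
    have h5 : C * ‖ζ - η‖ ≤ (C + 1) * (ε / (4 * (C + 1))) :=
      mul_le_mul (by linarith) hd.le (norm_nonneg _) (by linarith)
    have h6 : (C + 1) * (ε / (4 * (C + 1))) = ε / 4 := by
      field_simp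
    linarith
  rw [h2]
  calc ‖x j (ζ - η) - x k (ζ - η) + (x j η - x k η)‖
      ≤ ‖x j (ζ - η) - x k (ζ - η)‖ + ‖x j η - x k η‖ := norm_add_le _ _
    _ ≤ ‖x j (ζ - η)‖ + ‖x k (ζ - η)‖ + ‖x j η - x k η‖ := by
        gcongr
        exact norm_sub_le _ _
    _ < ε := by
        have := h3 j
        have := h3 k
        linarith

end

theorem pf_CMP (hDEN : T_DEN) : T_CMP := by
  intro H _ _ _ M ξ hξ x C hxM hC hCau
  have hs := hξ.sum
  have hC0 : 0 ≤ C := (norm_nonneg _).trans (hC 0)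
  -- pointwise Cauchy
  have hpt : ∀ ζ : H, CauchySeq fun k => x k ζ := by
    intro ζ
    refine cmp_cauchy x C hC _ ?_ ζ (hDEN H M ξ hξ ζ)
    rintro η ⟨y, hy, n, rfl⟩
    have h1 : ∀ k, x k (y (ξ n)) = y (x k (ξ n)) := by
      intro k
      have := congrArg (fun A : H →L[ℂ] H => A (ξ n)) (hy (x k) (hxM k))
      exact this
    have h2 : (fun k => x k (y (ξ n))) = fun k => y (x k (ξ n)) := funext h1
    rw [h2]
    have h3 : CauchySeq fun k => x k (ξ n) := by
      rw [Metric.cauchySeq_iff]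
      intro ε hε
      obtain ⟨K, hK⟩ := hCau ε hε
      refine ⟨K, fun j hj k hk => ?_⟩
      rw [dist_eq_norm]
      have h4 : x j (ξ n) - x k (ξ n) = (x j - x k) (ξ n) := rfl
      rw [h4]
      exact (cmp_apply_le hs _ n).trans_lt (hK j hj k hk)
    exact y.uniformContinuous.comp_cauchySeq h3
  choose f hf using fun ζ : H => cauchySeq_tendsto_of_complete (hpt ζ)
  have hlim : Tendsto (fun k ζ => x k ζ) atTop (𝓝 f) := tendsto_pi_nhds.mpr hf
  set z := continuousLinearMapOfTendsto x hlim with hz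
  have hzf : ∀ ζ, z ζ = f ζ := fun ζ => rfl
  have hzt : ∀ ζ, Tendsto (fun k => x k ζ) atTop (𝓝 (z ζ)) := fun ζ => hf ζ
  refine ⟨z, ?_, ?_, ?_⟩
  · refine mem_of_comm fun y hy => ?_
    ext ζ
    show z (y ζ) = y (z ζ)
    have h1 := hzt (y ζ)
    have h2 : Tendsto (fun k => y (x k ζ)) atTop (𝓝 (y (z ζ))) :=
      (y.continuous.tendsto _).comp (hzt ζ)
    have h3 : (fun k => x k (y ζ)) = fun k => y (x k ζ) := by
      funext k
      exact congrArg (fun A : H →L[ℂ] H => A ζ) (hy (x k) (hxM k))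
    rw [h3] at h1
    exact tendsto_nhds_unique h1 h2
  · refine ContinuousLinearMap.opNorm_le_bound _ hC0 fun ζ => ?_
    refine le_of_tendsto (hzt ζ).norm (Eventually.of_forall fun k => ?_)
    exact ((x k).le_opNorm _).trans (mul_le_mul_of_nonneg_right (hC k) (norm_nonneg _))
  · rw [Metric.tendsto_atTop]
    intro ε hε
    obtain ⟨K, hK⟩ := hCau (ε / 2) (by positivity)
    refine ⟨K, fun k hk => ?_⟩
    rw [Real.dist_eq, sub_zero, abs_of_nonneg (n2_nonneg _ _)]
    have h1 : n2 ξ (x k - z) ≤ ε / 2 := by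
      unfold n2
      rw [Real.sqrt_le_left (by positivity)]
      refine Real.tsum_le_of_sum_le (fun n => by positivity) fun s => ?_
      have h2 : Tendsto (fun j => ∑ n ∈ s, ‖(x k - x j) (ξ n)‖ ^ 2) atTop
          (𝓝 (∑ n ∈ s, ‖(x k - z) (ξ n)‖ ^ 2)) := by
        refine tendsto_finsetSum _ fun n _ => ?_
        have h3 : Tendsto (fun j => x k (ξ n) - x j (ξ n)) atTop (𝓝 (x k (ξ n) - z (ξ n))) :=
          (hzt (ξ n)).const_sub _
        exact h3.norm.pow 2
      refine le_of_tendsto h2 ?_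
      filter_upwards [eventually_ge_atTop K] with j hj
      refine (cmp_sum_le hs (x k - x j) s).trans ?_
      exact pow_le_pow_left₀ (n2_nonneg _ _) (hK k hk j hj).le 2
    linarith

end Pool.Agent.H30.G2
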