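import Pool.Agent.H80.G2.Targets

set_option autoImplicit false

open Pool.Agent.H80.G2

namespace Pool.Agent.H30.G2

theorem pf_SGN (hCFC : T_CFC) (hRNG : T_RNG) : T_SGN := by
  intro H _ _ _ M ξ hξ T hT hTs _
  have hsa : IsSelfAdjoint T := hTs
  have cP : Continuous fun t : ℝ => max t 0 := by fun_prop
  have cN : Continuous fun t : ℝ => max (-t) 0 := by fun_prop
  have cA : Continuous fun t : ℝ => |t| := by fun_prop
  have cG : Continuous fun t : ℝ => 1 / (1 + |t|) := by
    refine Continuous.div continuous_const (by fun_prop) fun t => ?_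
    positivity
  set P := cfc (fun t : ℝ => max t 0) T with hP
  set N := cfc (fun t : ℝ => max (-t) 0) T with hN
  have hPM : P ∈ M := hCFC H M T hT hTs _
  have hPs : star P = P := cfc_predicate (R := ℝ) (fun t : ℝ => max t 0) T
  have hNs : star N = N := cfc_predicate (R := ℝ) (fun t : ℝ => max (-t) 0) T
  have hNP : N * P = 0 := by
    rw [hN, hP, ← cfc_mul (fun t : ℝ => max (-t) 0) (fun t : ℝ => max t 0) T
      cN.continuousOn cP.continuousOn]
    have h1 : (fun t : ℝ => max (-t) 0 * max t 0) = fun _ => (0 : ℝ) := by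
      funext t
      rcases le_total t 0 with h | h
      · rw [max_eq_right h, mul_zero]
      · rw [max_eq_right (by linarith : -t ≤ 0), zero_mul]
    rw [h1, cfc_const_zero ℝ T]
  have hPN : P - N = T := by
    rw [hN, hP, ← cfc_sub (fun t : ℝ => max t 0) (fun t : ℝ => max (-t) 0) T
      cP.continuousOn cN.continuousOn]
    have h1 : (fun t : ℝ => max t 0 - max (-t) 0) = fun t => t := by
      funext t
      rcases le_total t 0 with h | h
      · rw [max_eq_right h, max_eq_left (by linarith : 0 ≤ -t)]
        ring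
      · rw [max_eq_left h, max_eq_right (by linarith : -t ≤ 0)]
        ring
    rw [h1, cfc_id' ℝ T]
  have hAbs : P + N = cfc (fun t : ℝ => |t|) T := by
    rw [hN, hP, ← cfc_add T (fun t : ℝ => max t 0) (fun t : ℝ => max (-t) 0)
      cP.continuousOn cN.continuousOn]
    congr 1
    funext t
    rcases le_total t 0 with h | h
    · rw [max_eq_right h, max_eq_left (by linarith : 0 ≤ -t), abs_of_nonpos h]
      ring
    · rw [max_eq_left h, max_eq_right (by linarith : -t ≤ 0), abs_of_nonneg h]
      ring
  obtain ⟨e, ⟨heM, hes, hee⟩, heP, hk, hcomm⟩ := hRNG H M P hPM hPs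
  have hNe : N * e = 0 := hk N hNP
  have heN : e * N = 0 := by
    have := congrArg star hNe
    rw [star_mul, hes, hNs, star_zero] at this
    exact this
  refine ⟨(2 : ℂ) • e - 1, ⟨sub_mem (smul_mem' M _ heM) (one_mem M), ?_, ?_⟩, ?_, ?_⟩
  · rw [star_sub, star_smul, hes, star_one]
    congr 2
    simp
  · rw [sub_mul, mul_sub, smul_mul_assoc, mul_smul_comm, hee]
    simp only [one_mul, mul_one]
    module
  · set s := (2 : ℂ) • e - 1 with hs
    have hsym : Sym M s := by
      refine ⟨sub_mem (smul_mem' M _ heM) (one_mem M), ?_, ?_⟩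
      · rw [hs, star_sub, star_smul, hes, star_one]
        congr 2
        simp
      · rw [hs, sub_mul, mul_sub, smul_mul_assoc, mul_smul_comm, hee]
        simp only [one_mul, mul_one]
        module
    have hsT : s * T = P + N := by
      rw [hs, ← hPN, sub_mul, smul_mul_assoc, mul_sub, heP, heN]
      simp only [one_mul]
      module
    have h1 : s - T = s * (1 - cfc (fun t : ℝ => |t|) T) := by
      rw [← hAbs, ← hsT, mul_sub, mul_one, ← mul_assoc, hsym.2.2, one_mul]
    rw [h1, n2_uni_mul hξ.sum hsym.uni]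
    have h2 : 1 - cfc (fun t : ℝ => |t|) T
        = cfc (fun t : ℝ => 1 / (1 + |t|)) T * (1 - T * T) := by
      have h3 : 1 - T * T = cfc (fun t : ℝ => 1 - t * t) T := by
        rw [cfc_sub (fun _ : ℝ => (1 : ℝ)) (fun t : ℝ => t * t) T (by fun_prop) (by fun_prop),
          cfc_const_one ℝ T, cfc_mul (fun t : ℝ => t) (fun t : ℝ => t) T (by fun_prop)
          (by fun_prop), cfc_id' ℝ T]
      have h4 : 1 - cfc (fun t : ℝ => |t|) T = cfc (fun t : ℝ => 1 - |t|) T := by
        rw [cfc_sub (fun _ : ℝ => (1 : ℝ)) (fun t : ℝ => |t|) T (by fun_prop) cA.continuousOn,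
          cfc_const_one ℝ T]
      rw [h3, h4, ← cfc_mul (fun t : ℝ => 1 / (1 + |t|)) (fun t : ℝ => 1 - t * t) T
        cG.continuousOn (by fun_prop)]
      congr 1
      funext t
      have h5 : (1 + |t|) ≠ 0 := by positivity
      have h6 : t * t = |t| * |t| := (abs_mul_abs_self t).symm
      rw [h6]
      field_simp
      ring
    rw [h2]
    refine (n2_mul_le hξ.sum _ _).trans ?_
    have h7 : ‖cfc (fun t : ℝ => 1 / (1 + |t|)) T‖ ≤ 1 := by
      refine norm_cfc_le zero_le_one fun t _ => ?_
      have h8 : (0 : ℝ) < 1 + |t| := by positivity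
      rw [Real.norm_eq_abs, abs_of_nonneg (by positivity)]
      rw [div_le_one h8]
      have := abs_nonneg t
      linarith
    have h9 := n2_nonneg ξ (1 - T * T)
    nlinarith
  · intro y hy hy'
    have c1 : Commute P y := Commute.cfc_real (show Commute T y from hy.symm) _
    have c2 : Commute P (star y) := Commute.cfc_real (show Commute T (star y) from hy'.symm) _
    have h1 := hcomm y c1.symm c2.symm
    rw [mul_sub, sub_mul, mul_smul_comm, smul_mul_assoc, h1, mul_one, one_mul]

end Pool.Agent.H30.G2
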