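import Pool.Agent.H80.G2.Targets

set_option autoImplicit false

open Pool.Agent.H80.G2

namespace Pool.Agent.H30.G2

variable {H : Type} [NormedAddCommGroup H] [InnerProductSpace ℂ H] [CompleteSpace H]

/-- the imaginary part of the unitary element attached to a self-adjoint contraction -/
theorem uns_b (a : H →L[ℂ] H) (ha : star a = a) (hn : ‖a‖ ≤ 1) :
    star (cfc (fun t : ℝ => Real.sqrt (1 - t ^ 2)) a) = cfc (fun t : ℝ => Real.sqrt (1 - t ^ 2)) a ∧
    cfc (fun t : ℝ => Real.sqrt (1 - t ^ 2)) a * cfc (fun t : ℝ => Real.sqrt (1 - t ^ 2)) a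
      = 1 - a * a ∧
    a * cfc (fun t : ℝ => Real.sqrt (1 - t ^ 2)) a
      = cfc (fun t : ℝ => Real.sqrt (1 - t ^ 2)) a * a := by
  have hsa : IsSelfAdjoint a := ha
  have hc : Continuous fun t : ℝ => Real.sqrt (1 - t ^ 2) := by fun_prop
  refine ⟨?_, ?_, ?_⟩
  · have := cfc_predicate (R := ℝ) (fun t : ℝ => Real.sqrt (1 - t ^ 2)) a
    exact this
  · rw [← cfc_mul (fun t : ℝ => Real.sqrt (1 - t ^ 2)) (fun t : ℝ => Real.sqrt (1 - t ^ 2)) a
      hc.continuousOn hc.continuousOn]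
    have h1 : Set.EqOn (fun t : ℝ => Real.sqrt (1 - t ^ 2) * Real.sqrt (1 - t ^ 2))
        (fun t : ℝ => 1 - t * t) (spectrum ℝ a) := by
      intro t ht
      have h2 : |t| ≤ 1 := by
        have := spectrum.norm_le_norm_mul_of_mem ht
        have h3 : ‖(1 : H →L[ℂ] H)‖ ≤ 1 := ContinuousLinearMap.norm_id_le
        rw [Real.norm_eq_abs] at this
        have h4 : ‖a‖ * ‖(1 : H →L[ℂ] H)‖ ≤ 1 * 1 :=
          mul_le_mul hn h3 (norm_nonneg _) zero_le_one
        linarith
      have h5 : 0 ≤ 1 - t ^ 2 := by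
        have := abs_le.mp h2
        nlinarith
      show Real.sqrt (1 - t ^ 2) * Real.sqrt (1 - t ^ 2) = 1 - t * t
      rw [Real.mul_self_sqrt h5]
      ring
    rw [cfc_congr h1]
    rw [cfc_sub (fun _ : ℝ => (1 : ℝ)) (fun t : ℝ => t * t) a (by fun_prop) (by fun_prop),
      cfc_const_one ℝ a, cfc_mul (fun t : ℝ => t) (fun t : ℝ => t) a (by fun_prop) (by fun_prop),
      cfc_id' ℝ a]
  · have h1 : a = cfc (fun t : ℝ => t) a := (cfc_id' ℝ a).symm
    conv_lhs => rw [h1, cfc_id' ℝ a]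
    have h2 := cfc_commute_cfc (fun t : ℝ => t) (fun t : ℝ => Real.sqrt (1 - t ^ 2)) a
    rw [cfc_id' ℝ a] at h2
    exact h2

/-- self-adjoint contractions of `M` are means of two unitary elements of `M` -/
theorem uns_w (hCFC : T_CFC) (M : VonNeumannAlgebra H) (a : H →L[ℂ] H) (hM : a ∈ M)
    (ha : star a = a) (hn : ‖a‖ ≤ 1) :
    ∃ w : H →L[ℂ] H, Uni M w ∧ a = (1 / 2 : ℂ) • w + (1 / 2 : ℂ) • star w := by
  obtain ⟨h1, h2, h3⟩ := uns_b a ha hn
  have h4 := hCFC H M a hM ha (fun t : ℝ => Real.sqrt (1 - t ^ 2))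
  set b := cfc (fun t : ℝ => Real.sqrt (1 - t ^ 2)) a with hb
  have hs : star (a + Complex.I • b) = a - Complex.I • b := by
    rw [star_add, star_smul, ha, h1]
    simp [sub_eq_add_neg]
  refine ⟨a + Complex.I • b, ⟨add_mem hM (smul_mem' M _ h4), ?_, ?_⟩, ?_⟩
  · rw [hs, sub_mul, mul_add, mul_add, smul_mul_assoc, mul_smul_comm, smul_mul_assoc,
      mul_smul_comm, smul_smul, Complex.I_mul_I, h2, h3]
    module
  · rw [hs, add_mul, mul_sub, mul_sub, smul_mul_assoc, mul_smul_comm, smul_mul_assoc,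
      mul_smul_comm, smul_smul, Complex.I_mul_I, h2, h3]
    module
  · rw [hs]
    module

theorem pf_UNS (hCFC : T_CFC) : T_UNS := by
  intro H _ _ _ M x hx
  by_cases hx0 : x = 0
  · refine ⟨fun _ => 0, fun _ => 1, fun _ => uni_one M, fun _ => ?_, ?_⟩
    · rw [norm_zero]
      exact norm_nonneg _
    · rw [hx0]
      simp
  have hr : 0 < ‖x‖ := norm_pos_iff.mpr hx0
  set r := ‖x‖ with hrdef
  have hrc : (r : ℂ) ≠ 0 := by exact_mod_cast hr.ne'
  have hxs : ‖star x‖ = r := norm_star x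
  have hxM : star x ∈ M := star_mem hx
  -- the two self-adjoint contractions
  have hA : ‖(1 / (2 * r) : ℂ) • (x + star x)‖ ≤ 1 := by
    rw [norm_smul]
    have h1 : ‖x + star x‖ ≤ 2 * r := by
      refine (norm_add_le _ _).trans ?_
      rw [hxs]
      linarith
    have h2 : ‖(1 / (2 * r) : ℂ)‖ = 1 / (2 * r) := by
      rw [norm_div, norm_mul, Complex.norm_real, Real.norm_eq_abs, abs_of_pos hr]
      norm_num
    rw [h2, div_mul_eq_mul_div, one_mul, div_le_one (by positivity)]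
    exact h1
  have hB : ‖(-Complex.I / (2 * r) : ℂ) • (x - star x)‖ ≤ 1 := by
    rw [norm_smul]
    have h1 : ‖x - star x‖ ≤ 2 * r := by
      refine (norm_sub_le _ _).trans ?_
      rw [hxs]
      linarith
    have h2 : ‖(-Complex.I / (2 * r) : ℂ)‖ = 1 / (2 * r) := by
      rw [norm_div, norm_mul, Complex.norm_real, Real.norm_eq_abs, abs_of_pos hr]
      norm_num
    rw [h2, div_mul_eq_mul_div, one_mul, div_le_one (by positivity)]
    exact h1
  have hAs : star ((1 / (2 * r) : ℂ) • (x + star x)) = (1 / (2 * r) : ℂ) • (x + star x) := by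
    rw [star_smul, star_add, star_star, add_comm]
    congr 1
    simp
  have hBs : star ((-Complex.I / (2 * r) : ℂ) • (x - star x))
      = (-Complex.I / (2 * r) : ℂ) • (x - star x) := by
    rw [star_smul, star_sub, star_star]
    have h1 : star (-Complex.I / (2 * r) : ℂ) = -(-Complex.I / (2 * r) : ℂ) := by
      simp [neg_div]
    rw [h1, neg_smul, ← smul_neg, neg_sub]
  obtain ⟨w1, hw1, h1⟩ := uns_w hCFC M _ (smul_mem' M _ (add_mem hx hxM)) hAs hA
  obtain ⟨w2, hw2, h2⟩ := uns_w hCFC M _ (smul_mem' M _ (sub_mem hx hxM)) hBs hB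
  refine ⟨![r * (1 / 2 : ℂ), r * (1 / 2 : ℂ), r * Complex.I * (1 / 2 : ℂ),
    r * Complex.I * (1 / 2 : ℂ)], ![w1, star w1, w2, star w2], ?_, ?_, ?_⟩
  · intro i
    fin_cases i
    · exact hw1
    · exact hw1.star
    · exact hw2
    · exact hw2.star
  · intro i
    have h3 : ‖(r * (1 / 2 : ℂ) : ℂ)‖ ≤ r := by
      rw [norm_mul, Complex.norm_real, Real.norm_eq_abs, abs_of_pos hr]
      norm_num
      linarith
    have h4 : ‖(r * Complex.I * (1 / 2 : ℂ) : ℂ)‖ ≤ r := by
      rw [norm_mul, norm_mul, Complex.norm_real, Real.norm_eq_abs, abs_of_pos hr]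
      norm_num
      linarith
    fin_cases i
    · exact h3
    · exact h3
    · exact h4
    · exact h4
  · have h5 : x = (r : ℂ) • ((1 / (2 * r) : ℂ) • (x + star x))
        + (r * Complex.I : ℂ) • ((-Complex.I / (2 * r) : ℂ) • (x - star x)) := by
      rw [smul_smul, smul_smul]
      have h6 : (r : ℂ) * (1 / (2 * r) : ℂ) = 1 / 2 := by field_simp
      have h7 : (r * Complex.I : ℂ) * (-Complex.I / (2 * r) : ℂ) = 1 / 2 := by
        have : (r * Complex.I : ℂ) * (-Complex.I / (2 * r) : ℂ)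
            = -(Complex.I * Complex.I) * (r / (2 * r)) := by ring
        rw [this, Complex.I_mul_I]
        field_simp
      rw [h6, h7]
      module
    rw [Fin.sum_univ_four]
    conv_lhs => rw [h5, h1, h2]
    simp only [Matrix.cons_val]
    module

end Pool.Agent.H30.G2
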